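import Pool.Agent.SGK.Stmts

/-!
# Squad SGK (MP_41797f_co), row LEX: linear extensions with a prescribed order on a subset
-/

set_option autoImplicit false

namespace Pool.Agent.SGK.H27

open Pool.Agent.SGK

open Classical in
/-- The rank function of a linear order on a finite type. -/
lemma rank {V : Type} [Fintype V] (s : V → V → Prop) (htr : ∀ u v w, s u v → s v w → s u w)
    (has : ∀ u v, s u v → s v u → u = v) (hto : ∀ u v, s u v ∨ s v u) :
    ∃ x : V → ℕ, Function.Injective x ∧ (∀ v, x v < Fintype.card V) ∧
      ∀ u w, u ≠ w → s u w → x u < x w := by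
  have hmono : ∀ u w, u ≠ w → s u w →
      (Finset.univ.filter (fun z => s z u ∧ z ≠ u)).card <
        (Finset.univ.filter (fun z => s z w ∧ z ≠ w)).card := by
    intro u w hne huw
    refine Finset.card_lt_card ?_
    rw [Finset.ssubset_iff_of_subset]
    · refine ⟨u, ?_, ?_⟩
      · rw [Finset.mem_filter]
        exact ⟨Finset.mem_univ _, huw, hne⟩
      · rw [Finset.mem_filter]
        exact fun h => h.2.2 rfl
    · intro z hz
      rw [Finset.mem_filter] at hz ⊢
      refine ⟨Finset.mem_univ _, htr z u w hz.2.1 huw, fun hzw => ?_⟩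
      subst hzw
      exact hne (has u z huw hz.2.1)
  refine ⟨fun v => (Finset.univ.filter (fun z => s z v ∧ z ≠ v)).card, ?_, ?_, hmono⟩
  · intro u w huw
    by_contra hne
    rcases hto u w with h | h
    · exact absurd huw (hmono u w hne h).ne
    · exact absurd huw (hmono w u (fun h => hne h.symm) h).ne'
  · intro v
    refine Finset.card_lt_univ_of_notMem (x := v) ?_
    rw [Finset.mem_filter]
    exact fun h => h.2.2 rfl

theorem lex : LexStmt := by
  intro V _ R htr hir U f hinj hmon
  let R' : V → V → Prop := fun u w => R u w ∨ ∃ p ∈ U, ∃ q ∈ U, (u = p ∨ R u p) ∧ f p < f q ∧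
    (q = w ∨ R q w)
  have hR'tr : ∀ u v w, R' u v → R' v w → R' u w := by
    intro u v w huv hvw
    rcases huv with h1 | ⟨p, hp, q, hq, h1, h2, h3⟩
    · rcases hvw with k1 | ⟨p', hp', q', hq', k1, k2, k3⟩
      · exact Or.inl (htr u v w h1 k1)
      · refine Or.inr ⟨p', hp', q', hq', Or.inr ?_, k2, k3⟩
        rcases k1 with k1 | k1
        · rw [← k1]; exact h1
        · exact htr _ _ _ h1 k1
    · rcases hvw with k1 | ⟨p', hp', q', hq', k1, k2, k3⟩
      · refine Or.inr ⟨p, hp, q, hq, h1, h2, Or.inr ?_⟩
        rcases h3 with h3 | h3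
        · rw [h3]; exact k1
        · exact htr _ _ _ h3 k1
      · refine Or.inr ⟨p, hp, q', hq', h1, ?_, k3⟩
        have hqp : f q ≤ f p' := by
          have : q = p' ∨ R q p' := by
            rcases h3 with h3 | h3
            · rw [h3]; exact k1
            · rcases k1 with k1 | k1
              · rw [← k1]; exact Or.inr h3
              · exact Or.inr (htr _ _ _ h3 k1)
          rcases this with h | h
          · rw [h]
          · exact (hmon q hq p' hp' h).le
        exact h2.trans_le (hqp.trans k2.le)
  have hR'ir : ∀ u, ¬ R' u u := by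
    intro u h
    rcases h with h | ⟨p, hp, q, hq, h1, h2, h3⟩
    · exact hir u h
    · have : f q ≤ f p := by
        have : q = p ∨ R q p := by
          rcases h3 with h3 | h3
          · rw [h3]; exact h1
          · rcases h1 with h1 | h1
            · rw [← h1]; exact Or.inr h3
            · exact Or.inr (htr _ _ _ h3 h1)
        rcases this with h | h
        · rw [h]
        · exact (hmon q hq p hp h).le
      exact absurd h2 (not_lt.mpr this)
  have hpo : IsPartialOrder V (fun u w => u = w ∨ R' u w) :=
    { refl := fun u => Or.inl rfl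
      trans := fun u v w h k => by
        rcases h with h | h
        · rw [h]; exact k
        · rcases k with k | k
          · rw [← k]; exact Or.inr h
          · exact Or.inr (hR'tr _ _ _ h k)
      antisymm := fun u v h k => by
        rcases h with h | h
        · exact h
        · rcases k with k | k
          · exact k.symm
          · exact absurd (hR'tr _ _ _ h k) (hR'ir u) }
  obtain ⟨s, hs, hle⟩ := extend_partialOrder (fun u w : V => u = w ∨ R' u w)
  obtain ⟨x, hxi, hxc, hxm⟩ := rank s (fun u v w h k => hs.toIsPartialOrder.toIsPreorder.trans u v w h k)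
    (fun u v h k => hs.toIsPartialOrder.antisymm u v h k) (fun u v => hs.total u v)
  have hx : ∀ u w, R' u w → x u < x w := by
    intro u w h
    refine hxm u w (fun hc => ?_) (hle u w (Or.inr h))
    rw [hc] at h
    exact hR'ir w h
  refine ⟨x, hxi, hxc, fun u w h => hx u w (Or.inl h), ?_⟩
  intro u hu w hw
  constructor
  · intro h
    by_contra hc
    rcases lt_or_eq_of_le (not_lt.mp hc) with h2 | h2
    · exact absurd h (not_lt.mpr (hx w u (Or.inr ⟨w, hw, u, hu, Or.inl rfl, h2, Or.inl rfl⟩)).le)
    · have := hinj w hw u hu h2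
      rw [this] at h
      exact lt_irrefl _ h
  · intro h
    exact hx u w (Or.inr ⟨u, hu, w, hw, Or.inl rfl, h, Or.inl rfl⟩)

end Pool.Agent.SGK.H27
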